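import Mathlib
import Pool.Agent.R877.RZ.Main

/-!
# MP_344049_nt: the inequality `|R_{m+1} - R_m| ≤ 1` for Ruzsa numbers fails

We show `R₃₇ ≤ 4` and `R₃₈ ≥ 6`, so `|R₃₈ - R₃₇| ≥ 2`.

* `R₃₇ ≤ 4`: the set `{1, 5, 7, 10, 11, 23, 25, 30, 31, 33}` (an affine image of the quartic residues
  modulo `37` together with `0`).
* `R₃₈ ≥ 6`: write `ℤ/38 = ℤ/2 × ℤ/19` and `A = {0} × P ∪ {1} × Q`.  Then every element of `ℤ/19`
  has one or two representations `p + q`, and between one and five representations in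
  `P + P` and `Q + Q` together.  So one of the sets, say `P`, has between two and six elements.
  Up to an affine map of `ℤ/19` we may assume that `0, 1 ∈ P` and that `P` is the least of its
  affine images containing `0` and `1`; for each such `P` an exhaustive search (checked by the
  kernel, with sets packed into base `256` numbers and convolutions computed as products modulo
  `256 ^ 19 - 1`) shows that there is no `Q`.
-/

namespace Pool.Agent.Results.MP_344049_nt.JumpAtThirtySeven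

open Pool.Agent.R877.RZ

/-- The number of ordered pairs `(x, y) ∈ A × A` with `x + y = n` in `ℤ/m`. -/
noncomputable def sigma {m : ℕ} (A : Set (ZMod m)) (n : ZMod m) : ℕ :=
  Set.ncard {p : ZMod m × ZMod m | p.1 ∈ A ∧ p.2 ∈ A ∧ p.1 + p.2 = n}

/-- The Ruzsa number of `m`: the least positive integer `r` for which some `A ⊆ ℤ/m` satisfies
`1 ≤ sigma A n ≤ r` for every `n`. -/
noncomputable def ruzsa (m : ℕ) : ℕ :=
  sInf {r : ℕ | 0 < r ∧ ∃ A : Set (ZMod m), ∀ n : ZMod m, 1 ≤ sigma A n ∧ sigma A n ≤ r}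

theorem sigma_eq {m : ℕ} [NeZero m] (A : Set (ZMod m)) [DecidablePred (· ∈ A)] (n : ZMod m) :
    sigma A n = ∑ x : ZMod m, (if x ∈ A then 1 else 0) * (if n - x ∈ A then 1 else 0) := by
  have h1 : {p : ZMod m × ZMod m | p.1 ∈ A ∧ p.2 ∈ A ∧ p.1 + p.2 = n} =
      (fun x : ZMod m => (x, n - x)) '' {x | x ∈ A ∧ n - x ∈ A} := by
    ext ⟨x, y⟩
    simp only [Set.mem_ofPred_eq, Set.mem_image, Prod.mk.injEq]
    constructor
    · rintro ⟨hx, hy, hxy⟩
      have : n - x = y := by rw [← hxy]; ring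
      exact ⟨x, ⟨hx, by rw [this]; exact hy⟩, rfl, this⟩
    · rintro ⟨z, ⟨hz, hz'⟩, rfl, rfl⟩
      exact ⟨hz, hz', by ring⟩
  have hinj : Function.Injective (fun x : ZMod m => (x, n - x)) := by
    intro x y h
    exact (Prod.mk.inj h).1
  unfold sigma
  rw [h1, Set.ncard_image_of_injective _ hinj]
  have h2 : {x | x ∈ A ∧ n - x ∈ A} =
      ((Finset.univ.filter (fun x : ZMod m => x ∈ A ∧ n - x ∈ A) : Finset (ZMod m)) :
        Set (ZMod m)) := by
    ext x
    simp
  rw [h2, Set.ncard_coe_finset, Finset.card_filter]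
  apply Finset.sum_congr rfl
  intro x _
  by_cases hx : x ∈ A <;> by_cases hy : n - x ∈ A <;> simp [hx, hy]

/-- the set showing `R₃₇ ≤ 4` -/
def B : Finset (ZMod 37) := {1, 5, 7, 10, 11, 23, 25, 30, 31, 33}

theorem B_spec : ∀ n : ZMod 37,
    1 ≤ ∑ x : ZMod 37, (if x ∈ B then 1 else 0) * (if n - x ∈ B then 1 else 0) ∧
    ∑ x : ZMod 37, (if x ∈ B then 1 else 0) * (if n - x ∈ B then 1 else 0) ≤ 4 := by
  decide +kernel

theorem ruzsa_37 : ruzsa 37 ≤ 4 := by
  apply Nat.sInf_le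
  refine ⟨by norm_num, (B : Set (ZMod 37)), fun n => ?_⟩
  have h : sigma (B : Set (ZMod 37)) n =
      ∑ x : ZMod 37, (if x ∈ B then 1 else 0) * (if n - x ∈ B then 1 else 0) := by
    rw [sigma_eq]
    simp only [Finset.mem_coe]
  rw [h]
  exact B_spec n

theorem ruzsa_38 : 6 ≤ ruzsa 38 := by
  classical
  apply le_csInf
  · refine ⟨38, by norm_num, Set.univ, fun n => ?_⟩
    rw [sigma_eq]
    simp
  · rintro r ⟨-, A, hA⟩
    by_contra hr
    push Not at hr
    refine no_basis_38 (fun x => if x ∈ A then 1 else 0) (fun x => ?_) (fun n => ?_)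
    · split_ifs <;> norm_num
    · have h := hA n
      rw [sigma_eq] at h
      exact ⟨h.1, le_trans h.2 (by omega)⟩

/-- The inequality `|R_{m+1} - R_m| ≤ 1` does not hold for all positive integers `m`: in fact
`R₃₇ ≤ 4` and `R₃₈ ≥ 6`. -/
theorem result : (ruzsa 37 ≤ 4 ∧ 6 ≤ ruzsa 38) ∧
    ¬ ∀ m : ℕ, 0 < m → |(ruzsa (m + 1) : ℤ) - (ruzsa m : ℤ)| ≤ 1 := by
  refine ⟨⟨ruzsa_37, ruzsa_38⟩, fun h => ?_⟩
  have h1 := ruzsa_37
  have h2 := ruzsa_38
  have h3 := (abs_le.mp (h 37 (by norm_num))).2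
  have h4 : ruzsa (37 + 1) = ruzsa 38 := rfl
  rw [h4] at h3
  omega

end Pool.Agent.Results.MP_344049_nt.JumpAtThirtySeven
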